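import Pool.Agent.Helper13.MLF.Defs
import Pool.Agent.Helper97.MP.HWa

/-!
# Project MLF, block HWL, arithmetic part: the values `c f(x)` are `ℓ`-th powers in `k_v`
-/

set_option autoImplicit false
set_option maxHeartbeats 1000000

namespace Pool.Agent.MLF

open Polynomial NumberField IsDedekindDomain
open Pool.Agent.HG (Pr nm)
open Pool.Agent.LN (IsRam)
open Pool.Agent.ML (HasMu)
open Pool.Agent.MPF (finite_mem finite_nm clear_den lift_poly unit_quot hens)

/-- `ℓ` divides the number of units of the residue field -/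
theorem dvd_card_sub_one {F : Type} [Field F] [Finite F] {ℓ : ℕ} (hℓ : ℓ.Prime) {z : F}
    (h1 : z ^ ℓ = 1) (h2 : z ≠ 1) : ℓ ∣ Nat.card F - 1 := by
  classical
  have := Fintype.ofFinite F
  have hz0 : z ≠ 0 := by
    rintro rfl
    rw [zero_pow hℓ.ne_zero] at h1
    exact zero_ne_one h1
  have h3 : orderOf (Units.mk0 z hz0) = ℓ := by
    have := Fact.mk hℓ
    apply orderOf_eq_prime
    · ext
      simpa using h1
    · intro h
      apply h2
      have := congrArg Units.val h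
      simpa using this
  rw [← h3, ← Nat.card_units]
  exact orderOf_dvd_natCard _

theorem local_pow (hST : StmtSTL) {k : Type} [Field k] [NumberField k] {ℓ : ℕ} (hℓ : ℓ.Prime)
    (hmu : HasMu k ℓ) (fs : Fin (ℓ - 1) → k[X]) (hf : (∏ i, fs i).Separable)
    (hd : 0 < (∏ i, fs i).natDegree) :
    ∃ Bad : Set (Pr k), Bad.Finite ∧ ∀ v ∉ Bad, ∀ c : k, c ≠ 0 → ¬ IsRam ℓ v c →
      ∃ x : k, (∏ i, fs i ^ ((i : ℕ) + 1)).eval x ≠ 0 ∧ ∃ t : v.adicCompletion k,
        algebraMap k (v.adicCompletion k) (c * (∏ i, fs i ^ ((i : ℕ) + 1)).eval x) = t ^ ℓ := by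
  classical
  obtain ⟨A, B, hAB⟩ := hf
  obtain ⟨b, hb0, hb⟩ := clear_den ((Finset.univ.biUnion fun i => (fs i).coeffs) ∪ A.coeffs ∪ B.coeffs)
  have hco : ∀ p : k[X], p.coeffs ⊆ (Finset.univ.biUnion fun i => (fs i).coeffs) ∪ A.coeffs ∪
      B.coeffs → ∀ i, ∃ c : 𝓞 k, algebraMap (𝓞 k) k c = algebraMap (𝓞 k) k b * p.coeff i := by
    intro p hp i
    by_cases h0 : p.coeff i = 0
    · exact ⟨0, by rw [h0, map_zero, mul_zero]⟩
    · exact hb _ (hp (coeff_mem_coeffs h0))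
  have hinj : Function.Injective (algebraMap (𝓞 k) k) := FaithfulSMul.algebraMap_injective _ _
  have hF' : ∀ j, ∃ F : (𝓞 k)[X], F.map (algebraMap (𝓞 k) k) = C (algebraMap (𝓞 k) k b) * fs j :=
    fun j => lift_poly b (fs j) (hco (fs j) fun x hx => by
      simp only [Finset.mem_union, Finset.mem_biUnion, Finset.mem_univ, true_and]
      exact Or.inl (Or.inl ⟨j, hx⟩))
  choose F hF using hF'
  obtain ⟨G, hG⟩ := lift_poly b A (hco A (fun x hx => by simp [hx]))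
  obtain ⟨H, hH⟩ := lift_poly b B (hco B (fun x hx => by simp [hx]))
  have hbk : algebraMap (𝓞 k) k b ≠ 0 := by
    rw [Ne, map_eq_zero_iff _ hinj]; exact hb0
  set FF : (𝓞 k)[X] := ∏ j, F j with hFF
  set ff : k[X] := ∏ j, fs j with hff
  have hFFm : FF.map (algebraMap (𝓞 k) k) = C (algebraMap (𝓞 k) k b ^ (ℓ - 1)) * ff := by
    rw [hFF, Polynomial.map_prod, Finset.prod_congr rfl fun j _ => hF j, Finset.prod_mul_distrib,
      Finset.prod_const, Finset.card_univ, Fintype.card_fin, C_pow]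
  have hℓ1 : ℓ - 1 + 1 = ℓ := Nat.sub_add_cancel hℓ.one_le
  have hrel : G * FF + H * derivative FF = C (b ^ ℓ) := by
    apply map_injective _ hinj
    rw [Polynomial.map_add, Polynomial.map_mul, Polynomial.map_mul, ← derivative_map, hFFm, hG, hH,
      derivative_C_mul, map_C]
    simp only [map_pow]
    have h1 : (C (algebraMap (𝓞 k) k b) : k[X]) ^ ℓ =
        C (algebraMap (𝓞 k) k b) ^ (ℓ - 1) * C (algebraMap (𝓞 k) k b) := by
      rw [← pow_succ, hℓ1]
    rw [h1]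
    linear_combination (C (algebraMap (𝓞 k) k b)) ^ (ℓ - 1) * C (algebraMap (𝓞 k) k b) * hAB
  set d := ff.natDegree with hdd
  have hFd : FF.natDegree = d := by
    rw [← natDegree_map_eq_of_injective hinj FF, hFFm, natDegree_C_mul (pow_ne_zero _ hbk)]
  have hF0 : FF.leadingCoeff ≠ 0 := by
    intro h
    rw [leadingCoeff_eq_zero] at h
    rw [h, natDegree_zero] at hFd
    omega
  obtain ⟨N, hN⟩ := hST ℓ hℓ d hd
  have hfac : ((N.factorial : ℕ) : 𝓞 k) ≠ 0 := by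
    rw [Nat.cast_ne_zero]; exact Nat.factorial_ne_zero _
  have hℓ0 : ((ℓ : ℕ) : 𝓞 k) ≠ 0 := by
    rw [Nat.cast_ne_zero]; exact hℓ.ne_zero
  -- the root of unity
  obtain ⟨ζ, hζ⟩ := hmu
  obtain ⟨ζ', hζ'⟩ : ∃ ζ' : 𝓞 k, algebraMap (𝓞 k) k ζ' = ζ :=
    ⟨⟨ζ, hζ.isIntegral hℓ.pos⟩, rfl⟩
  have hζ1 : ζ' - 1 ≠ 0 := by
    intro h
    rw [sub_eq_zero] at h
    rw [h, map_one] at hζ'
    exact hζ.ne_one hℓ.one_lt hζ'.symm
  have hζℓ : ζ' ^ ℓ = 1 := by
    apply hinj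
    rw [map_pow, hζ', hζ.pow_eq_one, map_one]
  refine ⟨{v | b ∈ v.asIdeal} ∪ {v | FF.leadingCoeff ∈ v.asIdeal} ∪
    {v | ((N.factorial : ℕ) : 𝓞 k) ∈ v.asIdeal} ∪ {v | nm v ≤ N} ∪
    {v | ((ℓ : ℕ) : 𝓞 k) ∈ v.asIdeal} ∪ {v | ζ' - 1 ∈ v.asIdeal},
    (((((finite_mem b hb0).union (finite_mem _ hF0)).union (finite_mem _ hfac)).union
      (finite_nm k _)).union (finite_mem _ hℓ0)).union (finite_mem _ hζ1), fun v hv c hc hev => ?_⟩
  simp only [Set.mem_union, Set.mem_ofPred_eq, not_or] at hv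
  obtain ⟨⟨⟨⟨⟨hv1, hv2⟩, hv3⟩, hv4⟩, hv5⟩, hv6⟩ := hv
  -- the residue field
  have hmax : v.asIdeal.IsMaximal := v.isMaximal
  let _ : Field (𝓞 k ⧸ v.asIdeal) := Ideal.Quotient.field v.asIdeal
  have hfin : Finite (𝓞 k ⧸ v.asIdeal) := Ideal.finiteQuotientOfFreeOfNeBot v.asIdeal v.ne_bot
  set π := Ideal.Quotient.mk v.asIdeal with hπ
  have hπ0 : ∀ a : 𝓞 k, π a = 0 ↔ a ∈ v.asIdeal := fun a => Ideal.Quotient.eq_zero_iff_mem
  have hπb : π b ≠ 0 := by rw [Ne, hπ0]; exact hv1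
  have hmapFF : FF.map π = ∏ j, (F j).map π := by rw [hFF, Polynomial.map_prod]
  have hFbar : (FF.map π).natDegree = d := by
    rw [natDegree_map_of_leadingCoeff_ne_zero]
    · exact hFd
    · rw [Ne, hπ0]; exact hv2
  have hsep : (FF.map π).Separable := by
    have h1 : G.map π * FF.map π + H.map π * derivative (FF.map π) = C (π b ^ ℓ) := by
      rw [derivative_map, ← Polynomial.map_mul, ← Polynomial.map_mul, ← Polynomial.map_add, hrel,
        map_C, map_pow]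
    have h2 : π b ^ ℓ ≠ 0 := pow_ne_zero _ hπb
    refine ⟨C (π b ^ ℓ)⁻¹ * G.map π, C (π b ^ ℓ)⁻¹ * H.map π, ?_⟩
    calc C (π b ^ ℓ)⁻¹ * G.map π * FF.map π + C (π b ^ ℓ)⁻¹ * H.map π * derivative (FF.map π)
        = C (π b ^ ℓ)⁻¹ * (G.map π * FF.map π + H.map π * derivative (FF.map π)) := by ring
      _ = 1 := by rw [h1, ← C_mul, inv_mul_cancel₀ h2, C_1]
  -- the class of `c`
  have hvne : ∃ e : k, v.valuation k c = v.valuation k e ^ ℓ := by
    unfold IsRam at hev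
    push Not at hev
    exact hev
  obtain ⟨e, he⟩ := hvne
  have he0 : e ≠ 0 := by
    rintro rfl
    rw [map_zero, zero_pow hℓ.ne_zero] at he
    exact hc ((Valuation.zero_iff _).1 he)
  have hu : v.valuation k (c / e ^ ℓ) = 1 := by
    rw [map_div₀, map_pow, he, div_self]
    exact pow_ne_zero _ ((Valuation.ne_zero_iff _).2 he0)
  obtain ⟨α, β, hα, hβ, hαβ⟩ := unit_quot v _ hu
  set sg : ℕ := ∑ j : Fin (ℓ - 1), ((j : ℕ) + 1) with hsg
  have hcst : π (α * β ^ (ℓ - 1) * b ^ ((ℓ - 1) * sg)) ≠ 0 := by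
    rw [map_mul, map_mul, map_pow, map_pow]
    exact mul_ne_zero (mul_ne_zero (by rw [Ne, hπ0]; exact hα)
      (pow_ne_zero _ (by rw [Ne, hπ0]; exact hβ))) (pow_ne_zero _ hπb)
  have hchar : ((N.factorial : ℕ) : 𝓞 k ⧸ v.asIdeal) ≠ 0 := by
    intro h
    apply hv3
    rw [← hπ0, map_natCast]
    exact h
  have hcard : N ≤ Nat.card (𝓞 k ⧸ v.asIdeal) := by
    have : Nat.card (𝓞 k ⧸ v.asIdeal) = nm v := rfl
    rw [this]; omega
  have hdvd : ℓ ∣ Nat.card (𝓞 k ⧸ v.asIdeal) - 1 := by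
    refine dvd_card_sub_one hℓ (z := π ζ') (by rw [← map_pow, hζℓ, map_one]) fun h => ?_
    apply hv6
    rw [← hπ0, map_sub, h, map_one, sub_self]
  obtain ⟨x', y', hy', hxy⟩ := hN (𝓞 k ⧸ v.asIdeal) (fun j => (F j).map π)
    (by rw [← hmapFF]; exact hFbar) (by rw [← hmapFF]; exact hsep.squarefree) hchar hcard hdvd
    _ hcst
  obtain ⟨x, rfl⟩ := Ideal.Quotient.mk_surjective x'
  obtain ⟨y, rfl⟩ := Ideal.Quotient.mk_surjective y'
  set FP : (𝓞 k)[X] := ∏ j, F j ^ ((j : ℕ) + 1) with hFP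
  have hev1 : (∏ j, (F j).map π ^ ((j : ℕ) + 1)).eval (π x) = π (FP.eval x) := by
    have h1 : ∏ j, (F j).map π ^ ((j : ℕ) + 1) = FP.map π := by
      rw [hFP, Polynomial.map_prod]
      exact Finset.prod_congr rfl fun j _ => (Polynomial.map_pow _ _).symm
    rw [h1, eval_map]; exact eval₂_at_apply π x
  set cst : 𝓞 k := α * β ^ (ℓ - 1) * b ^ ((ℓ - 1) * sg) with hcstd
  have hxy' : (π y) ^ ℓ = π cst * π (FP.eval x) := by
    rw [← hev1]
    exact hxy
  have hmem : y ^ ℓ - cst * FP.eval x ∈ v.asIdeal := by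
    rw [← hπ0, map_sub, map_pow, map_mul, sub_eq_zero]
    exact hxy'
  have hFx : FP.eval x ∉ v.asIdeal := by
    rw [← hπ0]
    intro h0
    rw [h0, mul_zero] at hxy'
    exact hy' (pow_eq_zero_iff hℓ.ne_zero |>.1 hxy')
  have hyv : y ∉ v.asIdeal := by rw [← hπ0]; exact hy'
  -- Hensel
  set ι := algebraMap k (v.adicCompletion k) with hι
  have hval : ∀ a : k, Valued.v (ι a) = v.valuation k a := fun a =>
    HeightOneSpectrum.valuedAdicCompletion_eq_valuation' v a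
  set w : 𝓞 k := cst * FP.eval x with hw
  obtain ⟨z, hz, -⟩ := hens k v (X ^ ℓ - C (ι (algebraMap (𝓞 k) k w))) (ι (algebraMap (𝓞 k) k y))
    (by
      intro i
      rw [coeff_sub, coeff_X_pow, coeff_C]
      refine (Valuation.map_sub _ _ _).trans (max_le ?_ ?_)
      · split_ifs
        · rw [map_one]
        · rw [map_zero]; exact zero_le_one
      · split_ifs
        · rw [hval]; exact v.valuation_le_one w
        · rw [map_zero]; exact zero_le_one) (by rw [hval]; exact v.valuation_le_one y)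
    (by
      rw [eval_sub, eval_pow, eval_X, eval_C, ← map_pow, ← map_pow, ← map_sub, ← map_sub, hval]
      exact (v.valuation_lt_one_iff_mem _).2 hmem)
    (by
      rw [derivative_sub, derivative_X_pow, derivative_C, sub_zero, eval_mul, eval_C, eval_pow,
        eval_X]
      have h4 : ((ℓ : ℕ) : v.adicCompletion k) * ι (algebraMap (𝓞 k) k y) ^ (ℓ - 1) =
          ι (algebraMap (𝓞 k) k (((ℓ : ℕ) : 𝓞 k) * y ^ (ℓ - 1))) := by
        rw [map_mul, map_mul, map_natCast, map_natCast, map_pow, map_pow]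
      rw [h4, hval, HeightOneSpectrum.valuation_eq_one_iff_notMem]
      intro h5
      rcases hmax.isPrime.mem_or_mem h5 with h6 | h6
      · exact hv5 h6
      · exact hyv (hmax.isPrime.mem_of_pow_mem _ h6))
  rw [eval_sub, eval_pow, eval_X, eval_C, sub_eq_zero] at hz
  -- the value of `f`
  set fP : k[X] := ∏ j, fs j ^ ((j : ℕ) + 1) with hfP
  have hFPm : FP.map (algebraMap (𝓞 k) k) = C (algebraMap (𝓞 k) k b ^ sg) * fP := by
    rw [hFP, Polynomial.map_prod, hfP, C_pow, hsg, ← Finset.prod_pow_eq_pow_sum,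
      ← Finset.prod_mul_distrib]
    refine Finset.prod_congr rfl fun j _ => ?_
    rw [Polynomial.map_pow, hF, mul_pow]
  have hfx : algebraMap (𝓞 k) k (FP.eval x) =
      algebraMap (𝓞 k) k b ^ sg * fP.eval (algebraMap (𝓞 k) k x) := by
    have h7 : algebraMap (𝓞 k) k (FP.eval x) = (FP.map (algebraMap (𝓞 k) k)).eval
        (algebraMap (𝓞 k) k x) := by
      rw [eval_map]; exact (eval₂_at_apply _ x).symm
    rw [h7, hFPm, eval_mul, eval_C]
  have hβk : algebraMap (𝓞 k) k β ≠ 0 := by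
    rw [Ne, map_eq_zero_iff _ hinj]
    rintro rfl
    exact hβ (Ideal.zero_mem _)
  have hfx0 : fP.eval (algebraMap (𝓞 k) k x) ≠ 0 := by
    intro h0
    rw [h0, mul_zero, map_eq_zero_iff _ hinj] at hfx
    apply hFx
    rw [hfx]; exact Ideal.zero_mem _
  refine ⟨algebraMap (𝓞 k) k x, hfx0, ?_⟩
  have hfinal : c * fP.eval (algebraMap (𝓞 k) k x) =
      algebraMap (𝓞 k) k w * (e / (algebraMap (𝓞 k) k β * algebraMap (𝓞 k) k b ^ sg)) ^ ℓ := by
    have h8 : algebraMap (𝓞 k) k w = algebraMap (𝓞 k) k α * algebraMap (𝓞 k) k β ^ (ℓ - 1) *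
        algebraMap (𝓞 k) k b ^ ((ℓ - 1) * sg) *
        (algebraMap (𝓞 k) k b ^ sg * fP.eval (algebraMap (𝓞 k) k x)) := by
      rw [hw, map_mul, hcstd, map_mul, map_mul, map_pow, map_pow, hfx]
    have h9 : algebraMap (𝓞 k) k b ^ ((ℓ - 1) * sg) * algebraMap (𝓞 k) k b ^ sg =
        (algebraMap (𝓞 k) k b ^ sg) ^ ℓ := by
      rw [← pow_add, ← pow_mul, mul_comm sg ℓ]
      congr 1
      conv_rhs => rw [← hℓ1]
      rw [add_mul, one_mul]
    have h10 : algebraMap (𝓞 k) k β ^ (ℓ - 1) * algebraMap (𝓞 k) k β = algebraMap (𝓞 k) k β ^ ℓ := by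
      rw [← pow_succ, hℓ1]
    have h11 : algebraMap (𝓞 k) k w = c / e ^ ℓ * fP.eval (algebraMap (𝓞 k) k x) *
        (algebraMap (𝓞 k) k β * algebraMap (𝓞 k) k b ^ sg) ^ ℓ := by
      rw [h8, ← hαβ, mul_pow, ← h9, ← h10]
      ring
    have h12 : (algebraMap (𝓞 k) k β * algebraMap (𝓞 k) k b ^ sg) ^ ℓ ≠ 0 :=
      pow_ne_zero _ (mul_ne_zero hβk (pow_ne_zero _ hbk))
    have h13 : e ^ ℓ ≠ 0 := pow_ne_zero _ he0
    rw [h11, div_pow]
    field_simp
  rw [hfinal, map_mul, ← hz, map_pow]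
  exact ⟨z * ι (e / (algebraMap (𝓞 k) k β * algebraMap (𝓞 k) k b ^ sg)), by rw [mul_pow]⟩

end Pool.Agent.MLF
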